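import Pool.Agent.H61.NVK.TargetsE3

/-! Row E_LSB of the board nvk_modules. -/

set_option autoImplicit false

open MeasureTheory Set Filter NumberField NumberField.InfinitePlace
open scoped Real nonZeroDivisors

namespace Pool.Agent.H32.NVE_LSB

open Pool.Agent.H65.CM4 Pool.Agent.H61.CM4 Pool.Agent.H61.NVK

/-- the comparison function -/
noncomputable def g (m : ℤ) : ℝ := 3 * (1 + (m : ℝ) ^ 2)⁻¹

theorem g_nonneg (m : ℤ) : 0 ≤ g m := by
  unfold g
  positivity

theorem g_summable : Summable g := by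
  unfold g
  apply Summable.mul_left
  have h := (Real.summable_one_div_int_pow (p := 2)).mpr (by norm_num)
  refine Summable.of_norm_bounded_eventually (g := fun m : ℤ => 1 / (m : ℝ) ^ 2) h ?_
  filter_upwards [(Set.finite_singleton (0 : ℤ)).compl_mem_cofinite] with m hm
  have hm0 : (m : ℝ) ≠ 0 := by
    simp only [mem_compl_iff, mem_singleton_iff] at hm
    exact_mod_cast hm
  have h2 : 0 < (m : ℝ) ^ 2 := by positivity
  rw [Real.norm_eq_abs, abs_of_nonneg (by positivity), one_div]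
  exact inv_anti₀ h2 (by linarith)

theorem inv_le_g (x : ℝ) : (1 + x ^ 2)⁻¹ ≤ g ⌊x⌋ := by
  unfold g
  have h1 : (⌊x⌋ : ℝ) ≤ x := Int.floor_le x
  have h2 : x < ⌊x⌋ + 1 := Int.lt_floor_add_one x
  have h3 : 1 + (⌊x⌋ : ℝ) ^ 2 ≤ 3 * (1 + x ^ 2) := by
    rcases le_or_gt 0 (⌊x⌋ : ℝ) with h | h
    · nlinarith
    · nlinarith [sq_nonneg (x + 1), sq_nonneg x]
  have h4 : 0 < 1 + (⌊x⌋ : ℝ) ^ 2 := by positivity
  have h5 : 0 < 1 + x ^ 2 := by positivity
  rw [inv_le_iff_one_le_mul₀ h5]
  have : 3 * (1 + (⌊x⌋ : ℝ) ^ 2)⁻¹ * (1 + x ^ 2) = (3 * (1 + x ^ 2)) / (1 + (⌊x⌋ : ℝ) ^ 2) := by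
    field_simp
  rw [this, le_div_iff₀ h4]
  linarith

section

variable {k : Type} [Field k] [NumberField k] [IsTotallyReal k]

theorem floor_inj (p : Pl k → ℝ) :
    Function.Injective (fun (a : 𝓞 k) (v : Pl k) => ⌊rv v (a : k) + p v⌋) := by
  intro a a' h
  by_contra hne
  have hx : a - a' ≠ 0 := sub_ne_zero.mpr hne
  have hlt : ∀ v : Pl k, v ((a - a' : 𝓞 k) : k) < 1 := by
    intro v
    have hv := congrFun h v
    simp only at hv
    have h1 := Int.abs_sub_lt_one_of_floor_eq_floor hv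
    rw [← norm_embedding_of_isReal (IsTotallyReal.isReal v) ((a - a' : 𝓞 k) : k)]
    change ‖rv v ((a - a' : 𝓞 k) : k)‖ < 1
    have h3 : ((a - a' : 𝓞 k) : k) = (a : k) - (a' : k) := map_sub (algebraMap (𝓞 k) k) a a'
    have h2 : rv v ((a - a' : 𝓞 k) : k) = (rv v (a : k) + p v) - (rv v (a' : k) + p v) := by
      rw [h3, map_sub]
      ring
    rw [h2, Real.norm_eq_abs]
    exact h1
  obtain ⟨w⟩ := (inferInstance : Nonempty (InfinitePlace k))
  have := one_le_of_lt_one (w := w) hx (fun z _ => hlt z)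
  exact absurd this (not_le.mpr (hlt w))

theorem sum_bd (p : Pl k → ℝ) (s : Finset (𝓞 k)) :
    ∑ a ∈ s, ∏ v, (1 + (rv v (a : k) + p v) ^ 2)⁻¹ ≤ (∑' m, g m) ^ Fintype.card (Pl k) := by
  classical
  set φ : 𝓞 k → Pl k → ℤ := fun a v => ⌊rv v (a : k) + p v⌋ with hφ
  have hinj : Function.Injective φ := floor_inj p
  calc ∑ a ∈ s, ∏ v, (1 + (rv v (a : k) + p v) ^ 2)⁻¹
      ≤ ∑ a ∈ s, ∏ v, g (φ a v) := by
        apply Finset.sum_le_sum
        intro a _
        apply Finset.prod_le_prod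
        · intro v _
          positivity
        · intro v _
          exact inv_le_g _
    _ = ∑ m ∈ s.image φ, ∏ v, g (m v) := by
        rw [Finset.sum_image (fun a _ b _ hab => hinj hab)]
    _ ≤ ∑ m ∈ Fintype.piFinset (fun v : Pl k => (s.image φ).image (fun m => m v)), ∏ v, g (m v) := by
        apply Finset.sum_le_sum_of_subset_of_nonneg
        · intro m hm
          rw [Fintype.mem_piFinset]
          intro v
          exact Finset.mem_image.mpr ⟨m, hm, rfl⟩
        · intro m _ _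
          exact Finset.prod_nonneg (fun v _ => g_nonneg _)
    _ = ∏ v : Pl k, ∑ j ∈ (s.image φ).image (fun m => m v), g j := by
        rw [Finset.prod_univ_sum]
    _ ≤ ∏ _v : Pl k, ∑' m, g m := by
        apply Finset.prod_le_prod
        · intro v _
          exact Finset.sum_nonneg (fun j _ => g_nonneg _)
        · intro v _
          exact g_summable.sum_le_tsum _ (fun j _ => g_nonneg _)
    _ = (∑' m, g m) ^ Fintype.card (Pl k) := by
        rw [Finset.prod_const, Finset.card_univ]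

end

theorem pf_LSB : T_LSB := by
  intro k _ _ _
  have hG : 0 < ∑' m, g m := by
    have h0 : g 0 ≤ ∑' m, g m := g_summable.le_tsum 0 (fun j _ => g_nonneg _)
    have h1 : g 0 = 3 := by
      unfold g
      norm_num
    linarith
  refine ⟨(∑' m, g m) ^ Fintype.card (Pl k), by positivity, fun p => ⟨?_, ?_⟩⟩
  · exact summable_of_sum_le (fun a => Finset.prod_nonneg (fun v _ => by positivity)) (sum_bd p)
  · exact Real.tsum_le_of_sum_le (fun a => Finset.prod_nonneg (fun v _ => by positivity)) (sum_bd p)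

end Pool.Agent.H32.NVE_LSB
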