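import Pool.Agent.H61.NVK.TargetsE2
import Pool.Agent.H61.NVK.TargetsE3

/-! Row E_TBO of the board nvk_modules. -/

set_option autoImplicit false

open MeasureTheory Set Filter NumberField NumberField.InfinitePlace
open scoped Real nonZeroDivisors

namespace Pool.Agent.H32.NVE_TBO

open Pool.Agent.H65.CM4 Pool.Agent.H61.CM4 Pool.Agent.H61.NVK

theorem exp_neg_le (e x : ℝ) (he : 0 < e) :
    Real.exp (-(e * x ^ 2)) ≤ (1 + 1 / e) * (1 + (x + 0) ^ 2)⁻¹ := by
  have h0 : 0 ≤ e * x ^ 2 := by positivity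
  have h1 : e * x ^ 2 + 1 ≤ Real.exp (e * x ^ 2) := Real.add_one_le_exp _
  have h2 : 0 < Real.exp (e * x ^ 2) := Real.exp_pos _
  have h3 : 0 < 1 + x ^ 2 := by positivity
  have h4 : 1 + x ^ 2 ≤ (1 + 1 / e) * (e * x ^ 2 + 1) := by
    have : (1 + 1 / e) * (e * x ^ 2 + 1) = e * x ^ 2 + 1 + x ^ 2 + 1 / e := by
      field_simp
      ring
    rw [this]
    have : 0 < 1 / e := by positivity
    linarith
  rw [Real.exp_neg, add_zero, inv_le_iff_one_le_mul₀ h2]
  have h5 : 1 + x ^ 2 ≤ (1 + 1 / e) * Real.exp (e * x ^ 2) :=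
    le_trans h4 (mul_le_mul_of_nonneg_left h1 (by positivity))
  have h6 : (1 + 1 / e) * (1 + x ^ 2)⁻¹ * Real.exp (e * x ^ 2) =
      ((1 + 1 / e) * Real.exp (e * x ^ 2)) / (1 + x ^ 2) := by
    field_simp
  rw [h6, le_div_iff₀ h3]
  linarith

section

variable {k : Type} [Field k] [NumberField k] [IsTotallyReal k]

theorem card_le : Fintype.card (Pl k) ≤ dg k := by
  unfold dg
  have h1 := card_add_two_mul_card_eq_rank k
  have h2 := card_eq_nrRealPlaces_add_nrComplexPlaces k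
  rw [h2, ← h1]
  omega

theorem one_le_sum (w : 𝓞 k) (hw : w ≠ 0) : 1 ≤ ∑ v : Pl k, rv v (w : k) ^ 2 := by
  have h : ∃ v : Pl k, 1 ≤ v (w : k) := by
    by_contra hcon
    push Not at hcon
    obtain ⟨u⟩ := (inferInstance : Nonempty (InfinitePlace k))
    exact absurd (one_le_of_lt_one (w := u) hw (fun z _ => hcon z)) (not_le.mpr (hcon u))
  obtain ⟨v, hv⟩ := h
  have h1 : v (w : k) = |rv v (w : k)| := by
    rw [← Real.norm_eq_abs]
    exact (norm_embedding_of_isReal (IsTotallyReal.isReal v) (w : k)).symm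
  have h2 : 1 ≤ rv v (w : k) ^ 2 := by
    rw [← sq_abs, ← h1]
    nlinarith
  exact le_trans h2 (Finset.single_le_sum (f := fun v : Pl k => rv v (w : k) ^ 2)
    (fun v _ => sq_nonneg _) (Finset.mem_univ v))

theorem term_le (d : Pl k → ℝ) (δ e q : ℝ) (hq : 1 ≤ q) (hδ : 0 < δ) (he : e = δ / (2 * q ^ 2))
    (hd : ∀ v, δ ≤ d v) (m : k) (w : 𝓞 k) (hm : m ≠ 0) (hw : ∀ v, rv v (w : k) = q * rv v m)
    (hw0 : w ≠ 0) :
    Real.exp (-∑ v, d v * rv v m ^ 2) ≤ Real.exp (-e) * (1 + 1 / e) ^ dg k *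
      ∏ v, (1 + (rv v (w : k) + 0) ^ 2)⁻¹ := by
  have hq0 : 0 < q := by linarith
  have he0 : 0 < e := by
    rw [he]
    positivity
  have hS := one_le_sum w hw0
  set S : ℝ := ∑ v : Pl k, rv v (w : k) ^ 2 with hSdef
  have h1 : 2 * e * S ≤ ∑ v, d v * rv v m ^ 2 := by
    rw [hSdef, Finset.mul_sum]
    apply Finset.sum_le_sum
    intro v _
    rw [hw v]
    have : 2 * e * (q * rv v m) ^ 2 = δ * rv v m ^ 2 := by
      rw [he]
      field_simp
    rw [this]
    exact mul_le_mul_of_nonneg_right (hd v) (sq_nonneg _)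
  have h2 : Real.exp (-∑ v, d v * rv v m ^ 2) ≤ Real.exp (-e) * Real.exp (-(e * S)) := by
    rw [← Real.exp_add]
    apply Real.exp_le_exp.mpr
    nlinarith [mul_le_mul_of_nonneg_left hS he0.le]
  have h3 : Real.exp (-(e * S)) = ∏ v : Pl k, Real.exp (-(e * rv v (w : k) ^ 2)) := by
    rw [← Real.exp_sum]
    congr 1
    rw [hSdef, Finset.mul_sum, Finset.sum_neg_distrib]
  have h4 : Real.exp (-(e * S)) ≤ (1 + 1 / e) ^ dg k * ∏ v, (1 + (rv v (w : k) + 0) ^ 2)⁻¹ := by
    rw [h3]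
    calc ∏ v : Pl k, Real.exp (-(e * rv v (w : k) ^ 2))
        ≤ ∏ v : Pl k, ((1 + 1 / e) * (1 + (rv v (w : k) + 0) ^ 2)⁻¹) := by
          apply Finset.prod_le_prod
          · intro v _
            exact (Real.exp_pos _).le
          · intro v _
            exact exp_neg_le e _ he0
      _ = (1 + 1 / e) ^ Fintype.card (Pl k) * ∏ v, (1 + (rv v (w : k) + 0) ^ 2)⁻¹ := by
          rw [Finset.prod_mul_distrib, Finset.prod_const, Finset.card_univ]
      _ ≤ (1 + 1 / e) ^ dg k * ∏ v, (1 + (rv v (w : k) + 0) ^ 2)⁻¹ := by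
          apply mul_le_mul_of_nonneg_right
          · apply pow_le_pow_right₀
            · have : 0 < 1 / e := by positivity
              linarith
            · exact card_le
          · exact Finset.prod_nonneg (fun v _ => by positivity)
  calc Real.exp (-∑ v, d v * rv v m ^ 2) ≤ Real.exp (-e) * Real.exp (-(e * S)) := h2
    _ ≤ Real.exp (-e) * ((1 + 1 / e) ^ dg k * ∏ v, (1 + (rv v (w : k) + 0) ^ 2)⁻¹) :=
        mul_le_mul_of_nonneg_left h4 (Real.exp_pos _).le
    _ = _ := by ring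

end

theorem pf_TBO (hLSB : T_LSB) : T_TBO := by
  intro k _ _ _
  obtain ⟨C, hC, hL⟩ := hLSB k
  refine ⟨C * 2 ^ dg k, by positivity, ?_⟩
  intro I q δ d hq hI hδ hd
  have hq1 : (1 : ℝ) ≤ (q : ℝ) := by exact_mod_cast hq
  have hq0 : (0 : ℝ) < (q : ℝ) := by linarith
  set e : ℝ := δ / (2 * (q : ℝ) ^ 2) with he
  have he0 : 0 < e := by positivity
  set K0 : ℝ := Real.exp (-e) * (1 + 1 / e) ^ dg k with hK0
  have hK00 : 0 ≤ K0 := by positivity
  have main : ∀ F : k → ℝ, (∀ m, m ∈ I ∧ m ≠ 0 → F m = Real.exp (-∑ v, d v * rv v m ^ 2)) →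
      (∀ m, ¬ (m ∈ I ∧ m ≠ 0) → F m = 0) → Summable F ∧ ∑' m, F m ≤
        C * 2 ^ dg k * (1 + (q : ℝ) ^ 2 / δ) ^ dg k * Real.exp (-(δ / (2 * (q : ℝ) ^ 2))) := by
   intro F hF1 hF2
   have hF0 : ∀ m, 0 ≤ F m := by
    intro m
    by_cases hm : m ∈ I ∧ m ≠ 0
    · rw [hF1 m hm]
      exact (Real.exp_pos _).le
    · rw [hF2 m hm]
   obtain ⟨hs, hb⟩ := hL (fun _ => 0)
   set h : 𝓞 k → ℝ := fun a => ∏ v, (1 + (rv v (a : k) + 0) ^ 2)⁻¹ with hh
   have hh0 : ∀ a, 0 ≤ h a := fun a => Finset.prod_nonneg (fun v _ => by positivity)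
   have key : ∀ s : Finset k, ∑ m ∈ s, F m ≤ K0 * C := by
     intro s
     classical
     let W : k → 𝓞 k := fun m => if hm : m ∈ I then Classical.choose (hI m hm) else 0
     have hW : ∀ m ∈ I, ((W m : 𝓞 k) : k) = (q : k) * m := by
       intro m hm
       simp only [W]
       rw [dif_pos hm]
       exact Classical.choose_spec (hI m hm)
     have hqk : (q : k) ≠ 0 := by
       have : q ≠ 0 := by omega
       exact_mod_cast this
     have e1 : ∑ m ∈ s, F m = ∑ m ∈ s.filter (fun m => m ∈ I ∧ m ≠ 0), F m := by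
       refine (Finset.sum_filter_of_ne ?_).symm
       intro m _ hm
       by_contra hcon
       exact hm (hF2 m hcon)
     rw [e1]
     calc ∑ m ∈ s.filter (fun m => m ∈ I ∧ m ≠ 0), F m
         ≤ ∑ m ∈ s.filter (fun m => m ∈ I ∧ m ≠ 0), K0 * h (W m) := by
           apply Finset.sum_le_sum
           intro m hm
           obtain ⟨hmI, hm0⟩ := (Finset.mem_filter.mp hm).2
           rw [hF1 m ⟨hmI, hm0⟩]
           apply term_le d δ e (q : ℝ) hq1 hδ he hd m (W m) hm0
           · intro v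
             rw [hW m hmI, map_mul, map_natCast]
           · intro hcon
             have h1 := hW m hmI
             rw [hcon] at h1
             have h2 : (q : k) * m = 0 := by
               rw [← h1]
               exact map_zero (algebraMap (𝓞 k) k)
             rcases mul_eq_zero.mp h2 with h3 | h3
             · exact hqk h3
             · exact hm0 h3
       _ = K0 * ∑ a ∈ (s.filter (fun m => m ∈ I ∧ m ≠ 0)).image W, h a := by
           rw [Finset.sum_image, Finset.mul_sum]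
           intro m hm m' hm' hmm
           have hmI := (Finset.mem_filter.mp hm).2.1
           have hmI' := (Finset.mem_filter.mp hm').2.1
           have h1 : (q : k) * m = (q : k) * m' := by
             rw [← hW m hmI, ← hW m' hmI', hmm]
           exact mul_left_cancel₀ hqk h1
       _ ≤ K0 * C := by
           apply mul_le_mul_of_nonneg_left _ hK00
           exact le_trans (hs.sum_le_tsum _ (fun a _ => hh0 a)) hb
   have hKC : K0 * C ≤ C * 2 ^ dg k * (1 + (q : ℝ) ^ 2 / δ) ^ dg k * Real.exp (-(δ / (2 * (q : ℝ) ^ 2))) := by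
     have h1 : 1 + 1 / e ≤ 2 * (1 + (q : ℝ) ^ 2 / δ) := by
       rw [he]
       have : 1 / (δ / (2 * (q : ℝ) ^ 2)) = 2 * ((q : ℝ) ^ 2 / δ) := by
         field_simp
       rw [this]
       linarith
     have h2 : (1 + 1 / e) ^ dg k ≤ 2 ^ dg k * (1 + (q : ℝ) ^ 2 / δ) ^ dg k := by
       rw [← mul_pow]
       exact pow_le_pow_left₀ (by positivity) h1 _
     calc K0 * C = (C * Real.exp (-e)) * (1 + 1 / e) ^ dg k := by
           rw [hK0]
           ring
       _ ≤ (C * Real.exp (-e)) * (2 ^ dg k * (1 + (q : ℝ) ^ 2 / δ) ^ dg k) :=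
           mul_le_mul_of_nonneg_left h2 (by positivity)
       _ = _ := by
           rw [he]
           ring
   refine ⟨summable_of_sum_le hF0 key, ?_⟩
   exact le_trans (Real.tsum_le_of_sum_le hF0 key) hKC
  exact main _ (fun m hm => if_pos hm) (fun m hm => if_neg hm)

end Pool.Agent.H32.NVE_TBO
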