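import Pool.Agent.H61.NVK.TargetsE3

/-! Row E_VCC of the board nvk_modules. -/

set_option autoImplicit false

open MeasureTheory Set Filter NumberField NumberField.InfinitePlace
open scoped Real nonZeroDivisors

namespace Pool.Agent.H32.NVE_VCC

open Pool.Agent.H65.CM4 Pool.Agent.H61.CM4 Pool.Agent.H61.NVK

theorem pow_neg_compare (c x : ℝ) (B : ℕ) (hc : 0 < c) (hx : 0 ≤ x) :
    (1 + x / c) ^ (-(B : ℝ)) ≤ (1 + c) ^ B * (1 + x) ^ (-(B : ℝ)) := by
  have h1 : 0 < 1 + x / c := by positivity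
  have h2 : 0 < 1 + x := by positivity
  rw [Real.rpow_neg h1.le, Real.rpow_neg h2.le, Real.rpow_natCast, Real.rpow_natCast]
  rw [inv_le_iff_one_le_mul₀ (by positivity)]
  have h3 : 1 + x ≤ (1 + c) * (1 + x / c) := by
    have : (1 + c) * (1 + x / c) = 1 + x + c + x / c := by
      field_simp
      ring
    rw [this]
    have : 0 ≤ x / c := by positivity
    linarith
  have h4 : (1 + x) ^ B ≤ (1 + c) ^ B * (1 + x / c) ^ B := by
    rw [← mul_pow]
    exact pow_le_pow_left₀ h2.le h3 B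
  have h5 : (1 + c) ^ B * ((1 + x) ^ B)⁻¹ * (1 + x / c) ^ B =
      ((1 + c) ^ B * (1 + x / c) ^ B) / (1 + x) ^ B := by
    field_simp
  rw [h5, le_div_iff₀ (by positivity)]
  linarith

theorem pf_VCC (hIXD : T_IXD) (hKCB : T_KCB) (hKCD : T_KCD) (hKRE : T_KRE) (hVC0 : T_VC0) : T_VCC := by
  intro k _ _ _
  obtain ⟨hdk, hdg, -, -, -, -⟩ := hIXD k
  have hdkR : (1 : ℝ) ≤ (dk k : ℝ) := by exact_mod_cast hdk
  have hdk0 : (0 : ℝ) < (dk k : ℝ) := by linarith
  set c : ℝ := (dk k : ℝ) with hc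
  set n : ℕ := dg k with hn
  set G : ℂ := gG (1 / 2) ^ n with hG
  let V : ℂ → ℂ := fun r => (r / (c : ℂ)) ^ (1 / 2 : ℂ) * Kc n (1 / 2) (r / (c : ℂ)) / G
  have hre : ∀ r : ℂ, (r / (c : ℂ)).re = r.re / c := fun r => Complex.div_ofReal_re r c
  have him : ∀ r : ℂ, (r / (c : ℂ)).im = r.im / c := fun r => Complex.div_ofReal_im r c
  have hnorm : ∀ r : ℂ, ‖r / (c : ℂ)‖ = ‖r‖ / c := by
    intro r
    rw [norm_div, Complex.norm_real, Real.norm_eq_abs, abs_of_pos hdk0]
  have hG0 : G ≠ 0 := by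
    rw [hG]
    apply pow_ne_zero
    rw [hKRE.1]
    have : (-(1 / (4 * Real.sqrt 2)) : ℝ) ≠ 0 := by
      have h2 : 0 < Real.sqrt 2 := Real.sqrt_pos.mpr (by norm_num)
      have : 0 < 1 / (4 * Real.sqrt 2) := by positivity
      linarith
    exact_mod_cast this
  refine ⟨V, ?_, ?_, ?_⟩
  · -- holomorphic
    have hmaps : MapsTo (fun r : ℂ => r / (c : ℂ)) {r : ℂ | 0 < r.re} Complex.slitPlane := by
      intro r hr
      rw [Complex.mem_slitPlane_iff]
      left
      rw [hre]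
      exact div_pos hr hdk0
    have hdiv : DifferentiableOn ℂ (fun r : ℂ => r / (c : ℂ)) {r : ℂ | 0 < r.re} :=
      (differentiable_id.div_const _).differentiableOn
    have h1 : DifferentiableOn ℂ (fun r : ℂ => (r / (c : ℂ)) ^ (1 / 2 : ℂ)) {r : ℂ | 0 < r.re} :=
      hdiv.cpow_const (fun r hr => hmaps hr)
    have h2 : DifferentiableOn ℂ (fun r : ℂ => Kc n (1 / 2) (r / (c : ℂ))) {r : ℂ | 0 < r.re} :=
      (hKCD n (1 / 2) (by norm_num) (by norm_num)).comp hdiv hmaps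
    exact (h1.mul h2).div_const G
  · -- real values
    intro x hx
    have h := hKRE.2.2 k x hx hdk
    rw [h]
    change ((x : ℂ) / (c : ℂ)) ^ (1 / 2 : ℂ) * Kc n (1 / 2) ((x : ℂ) / (c : ℂ)) / G = _
    have hxc : 0 ≤ x / c := by positivity
    have h1 : (x : ℂ) / (c : ℂ) = ((x / c : ℝ) : ℂ) := by push_cast; ring
    rw [h1]
    have h2 : ((x / c : ℝ) : ℂ) ^ (1 / 2 : ℂ) = ((Real.sqrt (x / c) : ℝ) : ℂ) := by
      rw [Real.sqrt_eq_rpow, Complex.ofReal_cpow hxc]
      norm_num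
    rw [h2, mul_div_assoc]
  · intro B
    obtain ⟨C0, hC0, h0⟩ := hVC0 n hdg
    obtain ⟨C1, j, hC1, h1⟩ := hKCB n B (1 / 8) (by norm_num) (le_refl _)
    -- the two regions
    set A0 : ℝ := (1 + C0) * (1 + c) ^ B with hA0
    set A1 : ℝ := C1 / ‖G‖ * (1 + c) ^ B with hA1
    have hA0' : 0 < A0 := by positivity
    have hA1' : 0 ≤ A1 := by positivity
    refine ⟨A0 + A1 + C0 + 1, by positivity, ?_⟩
    intro r hr hi
    have hr0 : 0 ≤ ‖r‖ := norm_nonneg _
    have hpw : 0 < (1 + ‖r‖) ^ (-(B : ℝ)) := by positivity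
    have hpw1 : (1 + ‖r‖) ^ (-(B : ℝ)) ≤ 1 := by
      apply Real.rpow_le_one_of_one_le_of_nonpos
      · linarith
      · simp
    have hr' : 0 < (r / (c : ℂ)).re := by
      rw [hre]
      exact div_pos hr hdk0
    have hi' : |(r / (c : ℂ)).im| ≤ (r / (c : ℂ)).re / 10 := by
      rw [hre, him, abs_div, abs_of_pos hdk0, div_right_comm]
      exact div_le_div_of_nonneg_right hi hdk0.le
    rcases le_or_gt ‖r / (c : ℂ)‖ 1 with hle | hgt
    · have h2 := h0 (r / (c : ℂ)) hr' hi' hle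
      have h3 : ‖V r - 1‖ ≤ C0 * ‖r‖ := by
        refine le_trans h2 ?_
        rw [hnorm]
        apply mul_le_mul_of_nonneg_left _ hC0.le
        exact div_le_self hr0 hdkR
      have h4 : ‖V r - 1‖ ≤ C0 := by
        refine le_trans h2 ?_
        nlinarith
      have h5 : ‖V r‖ ≤ 1 + C0 := by
        have : V r = 1 + (V r - 1) := by ring
        rw [this]
        refine le_trans (norm_add_le _ _) ?_
        rw [norm_one]
        linarith
      constructor
      · have h6 : 1 ≤ (1 + c) ^ B * (1 + ‖r‖) ^ (-(B : ℝ)) := by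
          rw [hnorm, div_le_one hdk0] at hle
          rw [Real.rpow_neg (by linarith), Real.rpow_natCast]
          rw [← div_eq_mul_inv, one_le_div (by positivity)]
          exact pow_le_pow_left₀ (by linarith) (by linarith) B
        calc ‖V r‖ ≤ (1 + C0) * 1 := by linarith
          _ ≤ (1 + C0) * ((1 + c) ^ B * (1 + ‖r‖) ^ (-(B : ℝ))) :=
              mul_le_mul_of_nonneg_left h6 (by linarith)
          _ = A0 * (1 + ‖r‖) ^ (-(B : ℝ)) := by
              rw [hA0]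
              ring
          _ ≤ (A0 + A1 + C0 + 1) * (1 + ‖r‖) ^ (-(B : ℝ)) :=
              mul_le_mul_of_nonneg_right (by linarith) hpw.le
      · exact le_trans h3 (mul_le_mul_of_nonneg_right (by linarith) hr0)
    · have hn1 : 1 ≤ ‖r‖ := by
        rw [hnorm, lt_div_iff₀ hdk0] at hgt
        linarith
      have h2 := h1 (1 / 2) (r / (c : ℂ)) (by norm_num) hr' (by
        have : |(1 / 2 : ℂ).im| = 0 := by norm_num
        rw [this, add_zero, mul_one]
        exact hi')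
      have e1 : |(1 / 2 : ℂ).im| = 0 := by norm_num
      rw [e1] at h2
      have e2 : C1 * (1 + (0 : ℝ)) ^ j * Real.exp (-(π * n * 0 / 2)) = C1 := by
        norm_num
      rw [e2] at h2
      have hR : 0 < ‖r / (c : ℂ)‖ := by linarith
      have h3 : ‖V r‖ = ‖r / (c : ℂ)‖ ^ (1 / 2 : ℝ) * ‖Kc n (1 / 2) (r / (c : ℂ))‖ / ‖G‖ := by
        change ‖(r / (c : ℂ)) ^ (1 / 2 : ℂ) * Kc n (1 / 2) (r / (c : ℂ)) / G‖ = _
        rw [norm_div, norm_mul]
        congr 2
        have hne : r / (c : ℂ) ≠ 0 := by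
          intro h
          rw [h] at hr'
          simp at hr'
        have : (1 / 2 : ℂ) = ((1 / 2 : ℝ) : ℂ) := by push_cast; ring
        rw [this, Complex.norm_cpow_real]
      have h4 : ‖V r‖ ≤ C1 / ‖G‖ * (1 + ‖r / (c : ℂ)‖) ^ (-(B : ℝ)) := by
        rw [h3]
        have hp1 : 0 ≤ ‖r / (c : ℂ)‖ ^ (1 / 2 : ℝ) := by positivity
        have h5 : ‖r / (c : ℂ)‖ ^ (1 / 2 : ℝ) * ‖Kc n (1 / 2) (r / (c : ℂ))‖ ≤
            C1 * (1 + ‖r / (c : ℂ)‖) ^ (-(B : ℝ)) := by
          refine le_trans (mul_le_mul_of_nonneg_left h2 hp1) ?_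
          have h6 : ‖r / (c : ℂ)‖ ^ (1 / 2 : ℝ) * (C1 * (‖r / (c : ℂ)‖ ^ (-(1 / 2 + 2 * (1 / 8)) : ℝ) *
              (1 + ‖r / (c : ℂ)‖) ^ (-(B : ℝ)))) =
              C1 * (‖r / (c : ℂ)‖ ^ (-(1 / 4) : ℝ) * (1 + ‖r / (c : ℂ)‖) ^ (-(B : ℝ))) := by
            have : ‖r / (c : ℂ)‖ ^ (-(1 / 4) : ℝ) = ‖r / (c : ℂ)‖ ^ (1 / 2 : ℝ) *
                ‖r / (c : ℂ)‖ ^ (-(1 / 2 + 2 * (1 / 8)) : ℝ) := by
              rw [← Real.rpow_add hR]
              norm_num
            rw [this]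
            ring
          rw [h6]
          apply mul_le_mul_of_nonneg_left _ hC1
          have h7 : ‖r / (c : ℂ)‖ ^ (-(1 / 4) : ℝ) ≤ 1 :=
            Real.rpow_le_one_of_one_le_of_nonpos hgt.le (by norm_num)
          have h8 : 0 ≤ (1 + ‖r / (c : ℂ)‖) ^ (-(B : ℝ)) := by positivity
          nlinarith
        have hGn : 0 < ‖G‖ := norm_pos_iff.mpr hG0
        rw [div_mul_eq_mul_div]
        exact div_le_div_of_nonneg_right h5 hGn.le
      have h5 : ‖V r‖ ≤ A1 * (1 + ‖r‖) ^ (-(B : ℝ)) := by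
        refine le_trans h4 ?_
        rw [hnorm, hA1, mul_assoc]
        exact mul_le_mul_of_nonneg_left (pow_neg_compare c ‖r‖ B hdk0 hr0) (by positivity)
      constructor
      · exact le_trans h5 (mul_le_mul_of_nonneg_right (by linarith) hpw.le)
      · have h6 : ‖V r‖ ≤ A1 := by
          refine le_trans h5 ?_
          nlinarith
        have h7 : ‖V r - 1‖ ≤ A1 + 1 := by
          refine le_trans (norm_sub_le _ _) ?_
          rw [norm_one]
          linarith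
        calc ‖V r - 1‖ ≤ A1 + 1 := h7
          _ ≤ (A1 + 1) * ‖r‖ := by nlinarith
          _ ≤ (A0 + A1 + C0 + 1) * ‖r‖ := mul_le_mul_of_nonneg_right (by linarith) hr0

end Pool.Agent.H32.NVE_VCC
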