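import Pool.Agent.H61.NVK.TargetsE3

/-! Row E_VKF of the board nvk_modules. -/

set_option autoImplicit false

open MeasureTheory Set Filter NumberField NumberField.InfinitePlace
open scoped Real nonZeroDivisors

namespace Pool.Agent.H32.NVE_VKF

open Pool.Agent.H65.CM4 Pool.Agent.H61.CM4 Pool.Agent.H61.NVK

theorem pow_half (x y : ℝ) (B : ℕ) (hx : 0 < x) (hy : 19 * x / 20 ≤ y) :
    (1 + y) ^ (-(B : ℝ)) ≤ 2 ^ B * (1 + x) ^ (-(B : ℝ)) := by
  have h1 : 0 < 1 + y := by linarith
  have h2 : 0 < 1 + x := by linarith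
  rw [Real.rpow_neg h1.le, Real.rpow_neg h2.le, Real.rpow_natCast, Real.rpow_natCast]
  rw [← div_eq_mul_inv, inv_eq_one_div, div_le_div_iff₀ (by positivity) (by positivity), one_mul,
    ← mul_pow]
  exact pow_le_pow_left₀ h2.le (by linarith) B

theorem pf_VKF (hVCC : T_VCC) : T_VKF := by
  intro k _ _ _
  obtain ⟨V, hV, hVk, hB⟩ := hVCC k
  have hopen : IsOpen {r : ℂ | 0 < r.re} := isOpen_lt continuous_const Complex.continuous_re
  have hmem : ∀ x : ℝ, 0 < x → ((x : ℂ)) ∈ {r : ℂ | 0 < r.re} := by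
    intro x hx
    simpa using hx
  have hder : ∀ x : ℝ, 0 < x → HasDerivAt (Vk k) (deriv V (x : ℂ)).re x := by
    intro x hx
    have h1 : HasDerivAt V (deriv V (x : ℂ)) (x : ℂ) :=
      ((hV (x : ℂ) (hmem x hx)).differentiableAt (hopen.mem_nhds (hmem x hx))).hasDerivAt
    have h2 := h1.real_of_complex
    refine h2.congr_of_eventuallyEq ?_
    filter_upwards [Ioi_mem_nhds hx] with y hy
    rw [hVk y hy, Complex.ofReal_re]
  have hcd : ContinuousOn (deriv V) {r : ℂ | 0 < r.re} := (hV.deriv hopen).continuousOn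
  refine ⟨fun x hx => (hder x hx).differentiableAt, fun x hx =>
    (hder x hx).continuousAt.continuousWithinAt, ?_, ?_⟩
  · have h1 : ContinuousOn (fun x : ℝ => (deriv V (x : ℂ)).re) (Ioi 0) := by
      apply Complex.continuous_re.comp_continuousOn
      exact hcd.comp Complex.continuous_ofReal.continuousOn (fun x hx => hmem x hx)
    exact h1.congr (fun x hx => (hder x hx).deriv)
  · intro B
    obtain ⟨C, hC, hb⟩ := hB B
    have h2B : (1 : ℝ) ≤ 2 ^ B := one_le_pow₀ (by norm_num)
    refine ⟨21 * C * 2 ^ B, by positivity, ?_⟩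
    intro x hx
    have hC' : C ≤ 21 * C * 2 ^ B := by nlinarith
    have hpw : 0 < (1 + x) ^ (-(B : ℝ)) := by positivity
    have hreal := hb (x : ℂ) (by simpa using hx) (by
      simp only [Complex.ofReal_im, abs_zero, Complex.ofReal_re]
      positivity)
    rw [hVk x hx] at hreal
    have hnx : ‖(x : ℂ)‖ = x := by
      rw [Complex.norm_real, Real.norm_eq_abs, abs_of_pos hx]
    have e1 : ‖((Vk k x : ℝ) : ℂ)‖ = |Vk k x| := by
      rw [Complex.norm_real, Real.norm_eq_abs]
    have e2 : ‖((Vk k x : ℝ) : ℂ) - 1‖ = |Vk k x - 1| := by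
      rw [← Complex.ofReal_one, ← Complex.ofReal_sub, Complex.norm_real, Real.norm_eq_abs]
    rw [hnx, e1, e2] at hreal
    refine ⟨le_trans hreal.1 (mul_le_mul_of_nonneg_right hC' hpw.le),
      le_trans hreal.2 (mul_le_mul_of_nonneg_right hC' hx.le), ?_⟩
    rw [(hder x hx).deriv]
    refine le_trans (Complex.abs_re_le_norm _) ?_
    -- the circle
    have hR : 0 < x / 20 := by positivity
    have hball : ∀ z ∈ Metric.closedBall (x : ℂ) (x / 20), 19 * x / 20 ≤ z.re ∧ |z.im| ≤ x / 20 ∧
        ‖z‖ ≤ 21 * x / 20 := by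
      intro z hz
      rw [Metric.mem_closedBall, dist_eq_norm] at hz
      have h1 : |(z - x).re| ≤ x / 20 := le_trans (Complex.abs_re_le_norm _) hz
      have h2 : |(z - x).im| ≤ x / 20 := le_trans (Complex.abs_im_le_norm _) hz
      rw [Complex.sub_re, Complex.ofReal_re] at h1
      rw [Complex.sub_im, Complex.ofReal_im, sub_zero] at h2
      refine ⟨by linarith [(abs_le.mp h1).1], h2, ?_⟩
      have : z = (x : ℂ) + (z - x) := by ring
      rw [this]
      refine le_trans (norm_add_le _ _) ?_
      rw [hnx]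
      linarith
    have hsub : Metric.closedBall (x : ℂ) (x / 20) ⊆ {r : ℂ | 0 < r.re} := by
      intro z hz
      have := (hball z hz).1
      simp only [mem_setOf_eq]
      linarith
    rcases le_or_gt x 1 with hx1 | hx1
    · have hd : DiffContOnCl ℂ (fun z => V z - 1) (Metric.ball (x : ℂ) (x / 20)) :=
        (hV.sub_const 1).diffContOnCl_ball hsub
      have hbd : ∀ z ∈ Metric.sphere (x : ℂ) (x / 20), ‖V z - 1‖ ≤ C * (21 * x / 20) := by
        intro z hz
        obtain ⟨h1, h2, h3⟩ := hball z (Metric.sphere_subset_closedBall hz)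
        refine le_trans (hb z (by linarith) (by linarith)).2 ?_
        exact mul_le_mul_of_nonneg_left h3 hC.le
      have h := Complex.norm_deriv_le_of_forall_mem_sphere_norm_le hR hd hbd
      have h4 : deriv (fun z => V z - 1) (x : ℂ) = deriv V (x : ℂ) := deriv_sub_const _
      rw [h4] at h
      have h5 : C * (21 * x / 20) / (x / 20) = 21 * C := by
        field_simp
      rw [h5] at h
      refine le_trans h ?_
      have h6 : (1 : ℝ) ≤ 2 ^ B * (1 + x) ^ (-(B : ℝ)) := by
        rw [Real.rpow_neg (by linarith), Real.rpow_natCast, ← div_eq_mul_inv,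
          one_le_div (by positivity)]
        exact pow_le_pow_left₀ (by linarith) (by linarith) B
      calc 21 * C = 21 * C * 1 := by ring
        _ ≤ 21 * C * (2 ^ B * (1 + x) ^ (-(B : ℝ))) := mul_le_mul_of_nonneg_left h6 (by positivity)
        _ = _ := by ring
    · have hd : DiffContOnCl ℂ V (Metric.ball (x : ℂ) (x / 20)) := hV.diffContOnCl_ball hsub
      have hbd : ∀ z ∈ Metric.sphere (x : ℂ) (x / 20), ‖V z‖ ≤ C * (2 ^ B * (1 + x) ^ (-(B : ℝ))) := by
        intro z hz
        obtain ⟨h1, h2, h3⟩ := hball z (Metric.sphere_subset_closedBall hz)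
        refine le_trans (hb z (by linarith) (by linarith)).1 ?_
        apply mul_le_mul_of_nonneg_left _ hC.le
        apply pow_half x ‖z‖ B hx
        exact le_trans h1 (le_trans (le_abs_self _) (Complex.abs_re_le_norm z))
      have h := Complex.norm_deriv_le_of_forall_mem_sphere_norm_le hR hd hbd
      refine le_trans h ?_
      rw [div_le_iff₀ hR]
      have h7 : 0 < C * (2 ^ B * (1 + x) ^ (-(B : ℝ))) := by positivity
      have h8 : 21 * C * 2 ^ B * (1 + x) ^ (-(B : ℝ)) * (x / 20) =
          C * (2 ^ B * (1 + x) ^ (-(B : ℝ))) * (21 * x / 20) := by ring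
      rw [h8]
      nlinarith

end Pool.Agent.H32.NVE_VKF
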